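import Pool.Agent.helper95.FI4.HR3

/-! # FI4, row BD4: the bound `2 l(B) < p` -/

set_option autoImplicit false

namespace Pool.Agent.FI4

open Pool.Agent.helper58.DC Pool.Agent.DI Pool.Agent.GR Pool.Agent.OB Pool.Agent.DR Pool.Agent.FI Pool.Agent.FI3

/-- numerical consequences of `Hyp` -/
theorem BD4_num {G : Type} [Group G] [Finite G] {p : ℕ} {M : Ideal (integralClosure ℤ ℂ)} {D : Subgroup G}
    {θ : G → ℂ} (hp : p.Prime) (h : Hyp p M D θ) : Odd p ∧ p ≠ 2 ∧ iI M D θ < p - 1 ∧ (RG M D θ).Nonempty := by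
  unfold Hyp at h
  have h1 := HR3_pos M D θ
  have h2 := HR3_le M D θ
  have h3 : 0 < Nat.card D := Nat.card_pos
  have h4 : (p - 1) * (RG M D θ).ncard ≤ (p - 1) * Nat.card D := Nat.mul_le_mul_left _ h2
  have h5 : 2 * iI M D θ * Nat.card D < (p - 1) * Nat.card D := by
    rw [mul_assoc]
    exact h.trans_le h4
  have h6 : 2 * iI M D θ < p - 1 := lt_of_mul_lt_mul_right h5 (Nat.zero_le _)
  have h7 : p ≠ 2 := by
    rintro rfl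
    omega
  refine ⟨hp.odd_of_ne_two h7, h7, by omega, ?_⟩
  rw [Set.nonempty_iff_ne_empty]
  intro h8
  rw [h8, Set.ncard_empty, mul_zero] at h
  exact Nat.not_lt_zero _ h

/-- transport of Bessel's inequality to integer combinations of the characters in a subset `S` -/
theorem BD4_bes {G : Type} [Group G] [Finite G] (B S : Set (G → ℂ)) (hSB : S ⊆ B) [Fintype S] (R : Set G) (U : Finset G)
    (hU : ∀ u, u ∈ U ↔ u ∈ R) (d : (G → ℂ) → G → ℂ) (f : S → G → ℤ) (hf : ∀ ψ : S, ∀ u ∈ R, d ψ u = f ψ u) (N : ℕ)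
    (h : ∀ a : (G → ℂ) → ℂ, ∑ᶠ u ∈ R, ‖∑ᶠ ψ ∈ B, a ψ * d ψ u‖ ^ 2 ≤ (N : ℝ) * ∑ᶠ ψ ∈ B, ‖a ψ‖ ^ 2) (a : S → ℤ) :
    ∑ u ∈ U, (∑ i, a i * f i u) ^ 2 ≤ N * ∑ i, a i ^ 2 := by
  classical
  have h1 := h (fun ψ => if hψ : ψ ∈ S then (a ⟨ψ, hψ⟩ : ℂ) else 0)
  have key : ∀ {E : Type} [AddCommMonoid E] (g : (G → ℂ) → E) (g' : S → E), (∀ ψ, ψ ∉ S → g ψ = 0) →
      (∀ i : S, g i = g' i) → ∑ᶠ ψ ∈ B, g ψ = ∑ i, g' i := by
    intro E _ g g' h0 h2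
    have h3 : ∑ᶠ ψ ∈ B, g ψ = ∑ᶠ ψ ∈ S, g ψ := by
      refine finsum_mem_inter_support_eq g B S ?_
      ext ψ
      constructor
      · rintro ⟨-, h5⟩
        refine ⟨?_, h5⟩
        by_contra h6
        exact h5 (h0 ψ h6)
      · rintro ⟨h4, h5⟩
        exact ⟨hSB h4, h5⟩
    rw [h3, ← finsum_subtype_eq_finsum_cond, finsum_eq_sum_of_fintype]
    exact Finset.sum_congr rfl fun i _ => h2 i
  have e1 : ∑ᶠ ψ ∈ B, ‖(if hψ : ψ ∈ S then (a ⟨ψ, hψ⟩ : ℂ) else 0)‖ ^ 2 = ((∑ i, a i ^ 2 : ℤ) : ℝ) := by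
    rw [key (fun ψ => ‖(if hψ : ψ ∈ S then (a ⟨ψ, hψ⟩ : ℂ) else 0)‖ ^ 2) (fun i => ((a i : ℤ) : ℝ) ^ 2)]
    · push_cast
      rfl
    · intro ψ hψ
      simp only [dif_neg hψ]
      simp
    · intro i
      simp only [dif_pos i.2]
      rw [Complex.norm_intCast, sq_abs]
  have e2 : ∑ᶠ u ∈ R, ‖∑ᶠ ψ ∈ B, (if hψ : ψ ∈ S then (a ⟨ψ, hψ⟩ : ℂ) else 0) * d ψ u‖ ^ 2 =
      ((∑ u ∈ U, (∑ i, a i * f i u) ^ 2 : ℤ) : ℝ) := by
    have h3 : R = (U : Set G) := by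
      ext u
      rw [Finset.mem_coe, hU]
    rw [h3, finsum_mem_coe_finset]
    push_cast
    refine Finset.sum_congr rfl fun u hu => ?_
    have h4 : ∑ᶠ ψ ∈ B, (if hψ : ψ ∈ S then (a ⟨ψ, hψ⟩ : ℂ) else 0) * d ψ u = ((∑ i, a i * f i u : ℤ) : ℂ) := by
      rw [key (fun ψ => (if hψ : ψ ∈ S then (a ⟨ψ, hψ⟩ : ℂ) else 0) * d ψ u)
        (fun i => ((a i : ℤ) : ℂ) * ((f i u : ℤ) : ℂ))]
      · push_cast
        rfl
      · intro ψ hψ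
        simp only [dif_neg hψ, zero_mul]
      · intro i
        simp only [dif_pos i.2]
        rw [hf i u ((hU u).1 hu)]
    rw [h4, Complex.norm_intCast, sq_abs]
    push_cast
    rfl
  rw [e1, e2] at h1
  exact_mod_cast h1

theorem BD4 (hLOA : LOA_stmt) (hGRG : GRG_stmt) (hBES : BES4_stmt) (hGMX : GMX_stmt) (hCN4 : CN4_stmt)
    (hLLN : LLN_stmt) (hHT4 : HT4_stmt) (hSG4 : SG4_stmt) (hKZ4 : KZ4_stmt) (hIR4 : IR4_stmt)
    (hTPR : FI.TPR_stmt) : BD4_stmt := by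
  classical
  intro p M hS G _ _ D x θ χ hR hHyp
  have hp := hS.pr
  have : Fact p.Prime := ⟨hp⟩
  obtain ⟨hodd, hp2, hlt, hne⟩ := BD4_num hp hHyp
  have lo := hLOA p M hS G D x θ χ hR
  obtain ⟨hT1, hT2, -⟩ := hTPR p M hS G
  have hθ : SB M ⊤ θ χ := (hT2 θ χ).1 hR.ind
  have hB : ∀ ψ ∈ Blk M χ (⊤ : Subgroup G), ψ ∈ Bl M (⊤ : Subgroup G) θ := fun ψ hψ =>
    ⟨hψ.1, ((hT2 ψ χ).1 hψ.2).trans hθ.symm⟩
  obtain ⟨m, hm⟩ := hGMX p (Nat.card G) hp hp2 Nat.card_pos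
  have hcn := hCN4 p M hS G D x θ χ hR hlt m hm
  obtain ⟨l, hl, hl1⟩ := hLLN p M hS G χ ⊤
  have hχ : χ ∈ Blk M χ (⊤ : Subgroup G) := by
    refine ⟨?_, fun g => ⟨0, M.zero_mem, by simp⟩⟩
    rw [hT1]
    exact hR.chi
  refine ⟨l, hl, hl1 ⟨χ, hχ⟩, ?_⟩
  obtain ⟨S, hSdef⟩ : ∃ S : Set (G → ℂ), S = {ψ : G → ℂ | ψ ∈ Blk M χ (⊤ : Subgroup G) ∧ PR m ψ} := ⟨_, rfl⟩
  rw [← hSdef] at hcn
  have hSB : S ⊆ Blk M χ (⊤ : Subgroup G) := by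
    rw [hSdef]
    exact fun ψ hψ => hψ.1
  have hSP : ∀ ψ ∈ S, PR m ψ := by
    rw [hSdef]
    exact fun ψ hψ => hψ.2
  have hSf : S.Finite := (IrrOn_fin (⊤ : Subgroup G)).subset fun ψ hψ => (hSB hψ).1
  have hlS : l = S.ncard := by
    have h1 : (l : ℂ) = (S.ncard : ℂ) := by rw [← hl, hcn]
    exact_mod_cast h1
  have := hSf.fintype
  obtain ⟨a, ha⟩ : ∃ a : ℕ, Nat.card D = p ^ a := (IsPGroup.iff_card.1 hR.dfa.pgrp)
  have hpel : ∀ u ∈ D, PEl p u := by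
    intro u hu
    obtain ⟨k, hk⟩ := hR.dfa.pgrp ⟨u, hu⟩
    refine ⟨k, ?_⟩
    have h1 := congrArg (fun z : D => (z : G)) hk
    simpa using h1
  obtain ⟨ε, hε, hεc⟩ := hSG4 p M hS hp2 G D x θ χ lo
  have hint : ∀ (ψ : S) (u : G), u ∈ RG M D θ → ∃ f : ℤ, dd M (Cz (⊤ : Subgroup G) u) θ ψ u = f := by
    intro ψ u hu
    exact hIR4 p M hS G D θ m hm u (hpel u hu.1) (hGRG p M hS hp2 G D x θ χ lo u hu).1 ψ (hSB ψ.2).1
      (hSP ψ ψ.2)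
  choose! f hf using hint
  obtain ⟨u₀, hu₀⟩ := hne
  obtain ⟨U, hUdef⟩ : ∃ U : Finset G, U = (Set.toFinite (RG M D θ)).toFinset := ⟨_, rfl⟩
  have hU : ∀ u, u ∈ U ↔ u ∈ RG M D θ := fun u => by rw [hUdef, Set.Finite.mem_toFinset]
  have hUc : U.card = (RG M D θ).ncard := by
    rw [hUdef, Set.ncard_eq_toFinset_card (RG M D θ) (Set.toFinite _)]
  have hcard := NUM.card_le (ι := S) p hodd U f ε (fun u _ => hε u) (fun ψ => ε u₀ * f ψ u₀)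
    (by
      intro ψ hd
      have h1 : (p : ℤ) ∣ f ψ u₀ := by
        rcases hε u₀ with h2 | h2
        · rwa [h2, one_mul] at hd
        · rw [h2] at hd
          have h3 : (-1 : ℤ) * f ψ u₀ = -(f ψ u₀) := by ring
          rw [h3] at hd
          exact (dvd_neg.1 hd)
      obtain ⟨c, hc⟩ := h1
      refine hKZ4 p M hS hp2 G D x θ χ lo u₀ hu₀ ψ (hB ψ (hSB ψ.2)) a ha
        (hHT4 p M hS G D x θ χ hR hHyp ψ (hSB ψ.2) a ha) ?_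
      rw [hf ψ u₀ hu₀, hc]
      push_cast
      exact InM.mul_right hS (InM.prime_mem hS) (IntAt.intCast hS c))
    (by
      intro ψ u hu
      have hu' := (hU u).1 hu
      have h1 := hεc ψ (hB ψ (hSB ψ.2)) u hu' u₀ hu₀
      rw [hf ψ u hu', hf ψ u₀ hu₀] at h1
      have h2 : ((ε u : ℂ) * (f ψ u : ℂ) - (ε u₀ : ℂ) * (f ψ u₀ : ℂ)) =
          ((ε u * f ψ u - ε u₀ * f ψ u₀ : ℤ) : ℂ) := by
        push_cast
        rfl
      rw [h2] at h1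
      exact (InM.intCast hS _).1 h1)
    (iI M D θ * Nat.card D) (by
      rw [hUc]
      exact hHyp)
    (by
      intro b
      refine BD4_bes (Blk M χ (⊤ : Subgroup G)) S hSB (RG M D θ) U hU
        (fun ψ u => dd M (Cz (⊤ : Subgroup G) u) θ ψ u) f (fun ψ u hu => hf ψ u hu) (iI M D θ * Nat.card D) ?_ b
      intro c
      refine (hBES p M hS hp2 G D x θ χ lo c).trans (le_of_eq ?_)
      push_cast
      ring)
  have h1 : Fintype.card S = S.ncard := by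
    rw [← Nat.card_eq_fintype_card, Nat.card_coe_set_eq]
  rw [h1, ← hlS] at hcard
  obtain ⟨k, hk⟩ := hodd
  omega

end Pool.Agent.FI4
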