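import Pool.Agent.helper95.FI4.SpecB

/-! # FI4, row HR3: `3 |I| < p` implies `Hyp` -/

set_option autoImplicit false

namespace Pool.Agent.FI4

open Pool.Agent.helper58.DC Pool.Agent.DI Pool.Agent.GR Pool.Agent.OB Pool.Agent.DR Pool.Agent.FI Pool.Agent.FI3

theorem HR3_pos {G : Type} [Group G] [Finite G] (M : Ideal (integralClosure ℤ ℂ)) (D : Subgroup G)
    (θ : G → ℂ) : 1 ≤ iI M D θ := by
  unfold iI Subgroup.relIndex
  exact Nat.one_le_iff_ne_zero.2 Subgroup.index_ne_zero_of_finite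

theorem HR3_le {G : Type} [Group G] [Finite G] (M : Ideal (integralClosure ℤ ℂ)) (D : Subgroup G)
    (θ : G → ℂ) : (RG M D θ).ncard ≤ Nat.card D := by
  have h1 : (RG M D θ) ⊆ (D : Set G) := fun u hu => hu.1
  have h2 := Set.ncard_le_ncard h1 (Set.toFinite _)
  exact h2

theorem HR3 (hXRG : XRG_stmt) : HR3_stmt := by
  intro p M hS G _ _ D x θ χ hR h3
  unfold Hyp
  exact NUM.cond p (iI M D θ) (Nat.card D) (RG M D θ).ncard (HR3_pos M D θ) Nat.card_pos h3
    (HR3_le M D θ) (hXRG p M hS.pr G D θ hR.dfa.pgrp)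

end Pool.Agent.FI4
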