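import Mathlib
import Pool.Agent.helper59.FI4.SpecP4
import Pool.Agent.helper1.FI4.SpecHT
import Pool.Agent.helper26.FI4.BES
import Pool.Agent.helper40.FIB.QLB

/-!
# Project fi4 (MP_baa4d7_al), block BOUND: `l(B) < p / 2`

OUTPUT: `BD4_stmt`, `HR3_stmt` of `helper59/FI4/Defs`. `L = Cz ⊤ u`, `u ∈ RG M D θ` a regular element of `D`, `d ψ u = dd M L θ ψ u`.
(1) There are signs `ε u` such that `ε u * d ψ u` is constant modulo `M` on `RG`, for every `ψ ∈ B` (SG4), and `d ψ u` is not in `M` if `ψ` has height zero (KZ4).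
(2) `d ψ u` is an integer if `ψ` is `p`-rational (DF4, GPW, IR4). (3) Bessel's inequality BES4 and `NUM.card_le` (helper26): `B` has at most `(p - 1) / 2`
`p`-rational characters, their number is `l(B)` (CN4). (4) XRG: the number of the elements of `D` outside `RG`.

ROWS: one file `Pool/Agent/<seat>/FI4/XXX.lean`, `import Pool.Agent.helper95.FI4.SpecB`, `namespace Pool.Agent.FI4`, header as here, auxiliary lemmas prefixed `XXX_`, no sorry, no double quotes in the file,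
no `convert`, no `congr!`. The rows named in the docstring are hypotheses; proved rows of FI, FI3, GR, DI (`QRS QCE QEI HTN QID QHT QCG QEU LCG LCO LRU QDI B2 ..`) may be added. READY TO USE: `HTA_cz_bot` (`cz ⊥ = ⊤`), `HTA_iI_pos`, `HTA_RG_le`,
`HTA_RG_pow`, `HTA_p` of `helper1/FI4/HT4` (copy them), `QLA_h1`, `QLA_conj`, `QLA_out`, `QLA_D_com` (`helper40/FIB/QLB`, imported), `QI0` (`helper12/FI/QI0`).
-/

set_option autoImplicit false

namespace Pool.Agent.FI4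

open Pool.Agent.helper58.DC Pool.Agent.DI Pool.Agent.GR Pool.Agent.OB Pool.Agent.DR Pool.Agent.FI Pool.Agent.FI3

/-! ## The regular elements -/

/-- **XRG** (short to medium; only Mathlib). Proof: let `C = cz D`, `T = TT M D θ`, `n = iI = C.relIndex T`. `C ≤ T` (`cz_le_TT`). If `u ∈ D`, `u ∉ RG` there is `t ∈ T`, `t ∉ C` with `t u = u t`. For `t ∈ T` let `F t = {u ∈ D | t u = u t}`, a subgroup of the `p`-group `D` which depends only on the coset `t C`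
(`c ∈ C` commutes with the elements of `D`); for `t ∉ C` it is proper (otherwise `t ∈ cz D`), so its index in `D` is divisible by `p` and `p * |F t| ≤ |D|`. Choose representatives `t_1, .., t_(n-1)` of the cosets of `C` in `T` different from `C` (`T ⧸ C.subgroupOf T` has `n` elements): `D \ RG` is
contained in the union of the `F t_i`, so `p * |D \ RG| ≤ ∑ p * |F t_i| ≤ (n - 1) |D|`. (`|D \ RG| = |D| - |RG|`, `RG ⊆ D` finite.) -/
def XRG_stmt : Prop :=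
  ∀ (p : ℕ) (M : Ideal (integralClosure ℤ ℂ)), p.Prime → ∀ (G : Type) [Group G] [Finite G] (D : Subgroup G) (θ : G → ℂ),
    IsPGroup p D → p * (Nat.card D - (RG M D θ).ncard) ≤ (iI M D θ - 1) * Nat.card D

/-! ## The signs -/

/-- **PSG** (medium; pure; from LCG, LCO of `helper40/FI/SpecLA`; PORT of LNU `helper53/FI/LNU.lean` and of the first half of LEP `helper25/FI/LEP.lean`, with `u ∈ R` instead of `u ∉ Z`).
Proof. (a) LCO (1) for `f = β χ`, `l = 1`: integers `c χ` with `∑ a, β χ a = |D| c χ`. `κ u = ∑ χ, c χ * conj (β χ u)` is `LGC` (LCG). For `u ∈ R`: `|D| κ u = ∑ a, ∑ χ, β χ a * conj (β χ u)`, only the `a = t u`, `t ∈ I`, contribute (h4a), they are different for different `t` (free), and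
`∑ χ, β χ (t u) * conj (β χ u) = ∑ χ, |β χ u|² = n(u)² |D|`. So `κ u = |I| n(u)²` for `u ∈ R`. (b) If `R` is empty: `ε = 1`. Otherwise `u₀ ∈ R`, `δ = n u₀`; `κ u - κ u₀` is `InM` (LCO (3)), so `p ∣ |I| (n u - δ)(n u + δ)`, and `p ∤ |I|`: `p ∣ n u - δ` or `p ∣ n u + δ`.
`ε u = 1` if `p ∣ n u - δ`, `-1` otherwise: `p ∣ ε u * n u - δ` on `R`. (c) `β χ u = n u * d χ u = (ε u n u) (ε u d χ u)`; `β χ u - β χ u'` is `InM` (LCO (3) twice), `(ε u n u - δ) (ε u d χ u)` is `InM` (`p` divides the integer, `d χ u` is integral), the same for `u'`: so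
`δ (ε u d χ u - ε u' d χ u')` is `InM`, and `δ⁻¹` is `IntAt` (`InM.intCast`, `IntAt.inv`). -/
def PSG_stmt : Prop :=
  ∀ (p : ℕ) (M : Ideal (integralClosure ℤ ℂ)), Setup p M → ∀ (D : Type) [CommGroup D] [Fintype D]
    (X : Type) [Fintype X] (R : Set D) (I : Subgroup (MulAut D)) (β d : X → D → ℂ) (n : D → ℤ),
    IsPGroup p D → ¬ p ∣ Nat.card I → (∀ t ∈ I, ∀ u ∈ R, t u = u → t = 1) → (∀ χ, LGC (β χ)) →
    (∀ χ, ∀ t ∈ I, ∀ u, β χ (t u) = β χ u) → (∀ χ, ∀ u ∈ R, β χ u = (n u : ℂ) * d χ u) →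
    (∀ u ∈ R, ¬ (p : ℤ) ∣ n u) →
    (∀ u ∈ R, ∀ a, (∀ t ∈ I, t u ≠ a) → ∑ χ, β χ a * (starRingEnd ℂ) (β χ u) = 0) →
    (∀ u ∈ R, ∑ χ, d χ u * (starRingEnd ℂ) (d χ u) = (Nat.card D : ℂ)) →
    (∀ χ, ∀ u ∈ R, IsIntegral ℤ (d χ u)) →
    ∃ ε : D → ℤ, (∀ u, ε u = 1 ∨ ε u = -1) ∧
      ∀ χ, ∀ u ∈ R, ∀ u' ∈ R, InM M ((ε u : ℂ) * d χ u - (ε u' : ℂ) * d χ u')

/-- **SG4** (medium; from PSG, QID, NU4, OR4, DOR4, GRG, RGF, QEU, QCG, QDI, LCG; PORT of QLAp, `helper59/FI3/QLAp.lean`). Proof: `P = ⊥`, `cz ⊥ = ⊤`. `i` from QID, `n` from NU4, `I : Subgroup (MulAut D)` from QI0 for `TT M D θ ⊓ cz ⊥`, `X = Bl M (cz ⊥) θ` (finite), `β ψ u = ev ψ i u / θ 1`,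
`R = {u : D | (u : G) ∈ RG M D θ}`. PSG: `p ∤ |I|` as in QLAp (`bet`); free: `t u = s u s⁻¹`, `s ∈ TT`, `t u = u` gives `s u = u s`, so `s ∈ cz D` and `t = 1`; `LGC`: `QLA_h1`; invariance: `hconj` of QLAp; `β = n d`, `p ∤ n`: NU4; the orthogonality: OR4 (the sum over `IrrOn (cz ⊥)` is the sum over `Bl`:
`QLA_out`; `ev φ i u⁻¹ = conj (ev φ i u)`: `QLA_conj`); `∑ |d|² = |D|`: DOR4 (2) with GRG; integral: QDI. `ε` on `G`: `ε u` of PSG for `u ∈ D`, `1` outside. -/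
def SG4_stmt : Prop :=
  ∀ (p : ℕ) (M : Ideal (integralClosure ℤ ℂ)), Setup p M → p ≠ 2 → ∀ (G : Type) [Group G] [Finite G]
    (D : Subgroup G) (x : G) (θ χ : G → ℂ), LoA p M D x θ χ →
    ∃ ε : G → ℤ, (∀ u, ε u = 1 ∨ ε u = -1) ∧
      ∀ ψ ∈ Bl M (⊤ : Subgroup G) θ, ∀ u ∈ RG M D θ, ∀ u' ∈ RG M D θ,
        InM M ((ε u : ℂ) * dd M (Cz (⊤ : Subgroup G) u) θ ψ u - (ε u' : ℂ) * dd M (Cz (⊤ : Subgroup G) u') θ ψ u')

/-- **KZ4** (short to medium; from QID, NU4, QHT, QEU, QCG, LCG, LCO). `d ψ u` is not in `M` if `ψ` has height zero. Proof: `P = ⊥`, `i`, `n` as in SG4. Suppose `InM M (dd .. u)`; then `ev ψ i u / θ 1 = n u * dd` is `InM` (`InM.mul_left`). `u ↦ ev ψ i u / θ 1` on `D` is `LGC` (`QLA_h1`), so by LCO (3)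
`ev ψ i 1 / θ 1` is `InM`. By QHT it is a natural number `N ≠ 0` with `v_p|G| + v_p N = v_p|D| + v_p (ψ 1)`, and `Defect p ⊤ ψ a`, `|D| = p ^ a` gives `v_p|G| = a + v_p (ψ 1)` (`ψ 1` is one natural number), so `v_p N = 0`, `p ∤ N`: contradiction to `InM.natCast`. (LCO needs `CommGroup`: see `QLA_lgc` in `helper40/FIB/QLB`.) -/
def KZ4_stmt : Prop :=
  ∀ (p : ℕ) (M : Ideal (integralClosure ℤ ℂ)), Setup p M → p ≠ 2 → ∀ (G : Type) [Group G] [Finite G]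
    (D : Subgroup G) (x : G) (θ χ : G → ℂ), LoA p M D x θ χ → ∀ u ∈ RG M D θ,
    ∀ ψ ∈ Bl M (⊤ : Subgroup G) θ, ∀ a : ℕ, Nat.card D = p ^ a → Defect p ⊤ ψ a →
    ¬ InM M (dd M (Cz (⊤ : Subgroup G) u) θ ψ u)

/-! ## Integrality -/

/-- **DF4** (short to medium; from QRS, QCE, QEI, HTN, Q1_BC, B2). The numbers `dd` by the values on the `p`-section. Proof: for `v ∈ K` `p`-regular `ψ (w v) = ∑_{η ∈ IrrOn K} mt K ψ η * η (w v)` (QRS, `L = ⊤`), `η (w v) = (η w / η 1) * η v` (QCE). Multiply with `η₀ v⁻¹`, sum over `v`: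
`∑_{η ∈ IrrOn K} mt K ψ η * (η w / η 1) * (|K| * EE p K η η₀)`. For `η ∉ Bl M K θ` `EE p K η η₀ = 0` (QEI (2), `S = Bl M K θ`), for `η ∈ Bl M K θ` `|D| * |K| * EE p K η η₀ = |K|` (HTN). -/
def DF4_stmt : Prop :=
  ∀ (p : ℕ) (M : Ideal (integralClosure ℤ ℂ)), Setup p M → ∀ (G : Type) [Group G] [Finite G]
    (D K : Subgroup G) (θ : G → ℂ), Good p M D K θ → ∀ w ∈ K, Cen K w → ∀ ψ ∈ IrrOn (⊤ : Subgroup G),
    ∀ η₀ ∈ Bl M K θ, (Nat.card K : ℂ) * dd M K θ ψ w =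
      Nat.card D * ∑ᶠ v ∈ {v : G | v ∈ K ∧ PReg p v}, ψ (w * v) * η₀ v⁻¹

/-- **GPW** (short; pure). Proof: `k` with `u ^ p ^ k = 1`. `j` from `Gm.gen` for `s`. `(u v) ^ (m ^ j) = u ^ (m ^ j) * v ^ (m ^ j)` (`Commute.mul_pow`); `orderOf v ∣ |G|` is prime to `p`, so `m ≡ 1`, `m ^ j ≡ 1` modulo `orderOf v` (`Gm.reg`) and `v ^ (m ^ j) = v`; `orderOf u = p ^ k'` divides `|G|`, so
`m ^ j ≡ s` modulo `orderOf u` and `u ^ (m ^ j) = u ^ s` (`pow_eq_pow_iff_modEq`). `PR` gives `ψ (g ^ (m ^ j)) = ψ g` by induction on `j` (`pow_succ`, `pow_mul`). -/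
def GPW_stmt : Prop :=
  ∀ (p : ℕ), p.Prime → ∀ (G : Type) [Group G] [Finite G] (m : ℕ), Gm p (Nat.card G) m → ∀ ψ : G → ℂ, PR m ψ →
    ∀ u v : G, u * v = v * u → PEl p u → PReg p v → ∀ s : ℕ, ¬ p ∣ s → ψ (u ^ s * v) = ψ (u * v)

/-- **IR4** (medium; from DF4, GPW, DPX (helper1), LRU (helper40), QDI). `d ψ u` is an integer if `ψ` is `p`-rational. Proof: `K = Cz ⊤ u`; `Bl M K θ` is not empty (`Good.card`), `η₀` in it. For `s` prime to `p`: `Cz ⊤ (u ^ s) = K` (`u` is a power of `u ^ s`; `Cz_pow` of BaseQ2), and DF4 for `w = u ^ s` and for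
`w = u` with GPW (`v ∈ K` commutes with `u`) gives `dd M K θ ψ (u ^ s) = dd M K θ ψ u =: d`. `n = p ^ (k + 1)` with `u ^ p ^ k = 1`, `ζ = exp (2 π i / n)`, `P` from DPX (`L = ⊤`): for `s` prime to `p` `d = aeval (ζ ^ s) P = ∑_j P.coeff j * (ζ ^ j) ^ s`. Sum over the `s < n`, `p ∤ s` (there are `N ≥ 1` of them: `s = 1`):
`N * d = ∑_j P.coeff j * ∑_s (ζ ^ j) ^ s` is an integer (LRU for `k + 1`, `w = ζ ^ j`). `d` is integral over `ℤ` (QDI), rational, so an integer (`IsIntegrallyClosed.isIntegral_iff` with `isIntegral_algebraMap_iff`; see LIN, `helper*/FI/LIN.lean`). -/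
def IR4_stmt : Prop :=
  ∀ (p : ℕ) (M : Ideal (integralClosure ℤ ℂ)), Setup p M → ∀ (G : Type) [Group G] [Finite G]
    (D : Subgroup G) (θ : G → ℂ) (m : ℕ), Gm p (Nat.card G) m → ∀ u : G, PEl p u → Good p M D (Cz (⊤ : Subgroup G) u) θ →
    ∀ ψ ∈ IrrOn (⊤ : Subgroup G), PR m ψ → ∃ f : ℤ, dd M (Cz (⊤ : Subgroup G) u) θ ψ u = f

end Pool.Agent.FI4
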