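import Pool.Agent.helper1.FI4.AllHTx
import Pool.Agent.helper95.FI4.BD4
import Pool.Agent.helper40.FI4.XRG
import Pool.Agent.helper89.FI4.PSG
import Pool.Agent.helper98.FI4.SG4
import Pool.Agent.helper92.FI4.KZ4
import Pool.Agent.helper2.FI4.DF4
import Pool.Agent.helper52.FI4.GPW
import Pool.Agent.helper28.FI4.IR4
import Pool.Agent.helper43.FI4.GMX

/-!
# Project fi4 (MP_baa4d7_al), block BOUND: assembly (from CN4 and LLN)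
-/

set_option autoImplicit false

namespace Pool.Agent.FI4.AllB

open Pool.Agent Pool.Agent.FI Pool.Agent.FI3 Pool.Agent.FI4 Pool.Agent.GR Pool.Agent.helper58.DC Pool.Agent.DI Pool.Agent.OB
  Pool.Agent.FI.AllQ

theorem bHR3 : HR3_stmt := HR3 XRG

theorem bSG4 : SG4_stmt :=
  SG4 (PSG aLA_LCG aLA_LCO) aLA_LCG AllQ2.dQID AllP4.pNU4 AllP4.pOR4 AllP4.pDOR4 AllP4.pGRG (AllQ2.eQEU qQEV)
    AllQ2.dQCG qQDI AllR.rEVM GR.All.dIDM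

theorem bKZ4 : KZ4_stmt :=
  KZ4 AllQ2.dQID AllP4.pNU4 (AllQ2.eQHT qQEV) (AllQ2.eQEU qQEV) AllQ2.dQCG aLA_LCG aLA_LCO

theorem bDF4 : DF4_stmt := DF4 qQRS qQCE qQEI AllC.cHTN GR.All.dB2

theorem bIR4 : IR4_stmt := IR4 bDF4 GPW AllHT.hDPX aLA_LRU qQDI

theorem bBD4 (hCN4 : CN4_stmt) (hLLN : LLN_stmt) : BD4_stmt :=
  BD4 AllP4.pLOA AllP4.pGRG AllP4.pBES4 FI4C.GMX hCN4 hLLN AllHT.tHT4 bSG4 bKZ4 bIR4 AllA.dTPR

end Pool.Agent.FI4.AllB
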